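import Mathlib

set_option autoImplicit false

/-! Binary words with prescribed successive minima: words `x 0, x 1, ...` of weights `0, 1, ...`
such that the sum mod two of any set of them is at least as heavy as each summand. -/

namespace Pool.Agent.F7QP

open Finset

variable {ι : Type} [Fintype ι] [DecidableEq ι]

/-- the sum mod two of the words `x a`, `a ∈ S` -/
def par (x : ℕ → Finset ι) (S : Finset ℕ) : Finset ι :=
  univ.filter (fun w => Odd (S.filter (fun a => w ∈ x a)).card)

lemma par_insert (x : ℕ → Finset ι) (S : Finset ℕ) (i : ℕ) (hi : i ∉ S) :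
    par x (insert i S) = symmDiff (x i) (par x S) := by
  ext w
  simp only [par, mem_filter, mem_univ, true_and, mem_symmDiff, filter_insert]
  by_cases hw : w ∈ x i
  · have : i ∉ S.filter (fun a => w ∈ x a) := fun h => hi (mem_filter.1 h).1
    simp only [hw, if_true, card_insert_of_notMem this, Nat.odd_add_one, true_and,
      not_true_eq_false, and_false, or_false]
  · simp only [hw, if_false, false_and, not_false_eq_true, and_true, false_or]

lemma par_congr (x y : ℕ → Finset ι) (S : Finset ℕ) (h : ∀ a ∈ S, x a = y a) :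
    par x S = par y S := by
  ext w
  simp only [par, mem_filter, mem_univ, true_and]
  rw [filter_congr (fun a ha => by rw [h a ha])]

lemma ball_card (i : ℕ) :
    ((univ : Finset (Finset ι)).filter (fun y => y.card < i)).card * 3 ^ (Fintype.card ι - i)
      ≤ 4 ^ Fintype.card ι := by
  have h := Finset.sum_pow_mul_eq_add_pow (1 : ℕ) 3 (univ : Finset ι)
  rw [powerset_univ, card_univ] at h
  norm_num at h
  rw [← h, ← smul_eq_mul, ← sum_const]
  calc ∑ _y ∈ (univ : Finset (Finset ι)).filter (fun y => y.card < i), 3 ^ (Fintype.card ι - i)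
      ≤ ∑ y ∈ (univ : Finset (Finset ι)).filter (fun y => y.card < i),
          3 ^ (Fintype.card ι - y.card) := by
        refine sum_le_sum fun y hy => Nat.pow_le_pow_right (by norm_num) ?_
        have := (mem_filter.1 hy).2
        omega
    _ ≤ _ := sum_le_sum_of_subset (filter_subset _ _)

lemma exists_far (i : ℕ) (hi : i ≤ Fintype.card ι)
    (hW : 6 ^ i * 4 ^ Fintype.card ι < 6 ^ Fintype.card ι)
    (C : Finset (Finset ι)) (hC : C.card ≤ 2 ^ i) :
    ∃ y : Finset ι, ∀ c ∈ C, i ≤ (symmDiff y c).card := by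
  by_contra hne
  push Not at hne
  set B := (univ : Finset (Finset ι)).filter (fun y => y.card < i) with hB
  have hsub : (univ : Finset (Finset ι)) ⊆ C.biUnion (fun c => B.image (fun z => symmDiff z c)) := by
    intro y _
    obtain ⟨c, hc, hlt⟩ := hne y
    refine mem_biUnion.2 ⟨c, hc, mem_image.2 ⟨symmDiff y c, mem_filter.2 ⟨mem_univ _, hlt⟩, ?_⟩⟩
    exact symmDiff_symmDiff_cancel_right c y
  have h1 : 2 ^ Fintype.card ι ≤ 2 ^ i * B.card := by
    calc 2 ^ Fintype.card ι = (univ : Finset (Finset ι)).card := by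
          rw [card_univ, Fintype.card_finset]
      _ ≤ _ := card_le_card hsub
      _ ≤ ∑ c ∈ C, (B.image (fun z => symmDiff z c)).card := card_biUnion_le
      _ ≤ ∑ _c ∈ C, B.card := sum_le_sum fun c _ => card_image_le
      _ = C.card * B.card := by rw [sum_const, smul_eq_mul]
      _ ≤ _ := Nat.mul_le_mul_right _ hC
  have h2 := ball_card (ι := ι) i
  rw [← hB] at h2
  obtain ⟨r, hr⟩ := Nat.exists_eq_add_of_le hi
  rw [hr] at h1 hW h2
  rw [Nat.add_sub_cancel_left] at h2
  have h3 : 6 ^ (i + r) = 3 ^ i * (3 ^ r * 2 ^ (i + r)) := by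
    rw [show (6 : ℕ) = 3 * 2 from rfl, mul_pow, pow_add 3]; ring
  have h4 : 3 ^ i * (3 ^ r * 2 ^ (i + r)) ≤ 6 ^ i * 4 ^ (i + r) := by
    calc 3 ^ i * (3 ^ r * 2 ^ (i + r)) ≤ 3 ^ i * (3 ^ r * (2 ^ i * B.card)) := by gcongr
      _ = 6 ^ i * (B.card * 3 ^ r) := by
          rw [show (6 : ℕ) = 3 * 2 from rfl, mul_pow]; ring
      _ ≤ _ := Nat.mul_le_mul_left _ h2
  omega

lemma exists_leader (i : ℕ) (hi : i ≤ Fintype.card ι)
    (hW : 6 ^ i * 4 ^ Fintype.card ι < 6 ^ Fintype.card ι)
    (C : Finset (Finset ι)) (hC : C.card ≤ 2 ^ i) (h0 : ∅ ∈ C)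
    (hcl : ∀ c ∈ C, ∀ d ∈ C, symmDiff c d ∈ C) :
    ∃ x : Finset ι, x.card = i ∧ ∀ c ∈ C, i ≤ (symmDiff x c).card := by
  obtain ⟨y, hy⟩ := exists_far i hi hW C hC
  obtain ⟨c0, hc0, hmin⟩ := exists_min_image C (fun c => (symmDiff y c).card) ⟨∅, h0⟩
  obtain ⟨x, hx, hxi⟩ := exists_subset_card_eq (hy c0 hc0)
  refine ⟨x, hxi, fun c hc => ?_⟩
  have h1 := hmin _ (hcl c0 hc0 c hc)
  have h2 : symmDiff y (symmDiff c0 c) ⊆ symmDiff x c ∪ (symmDiff y c0 \ x) := by
    intro w hw
    have := @hx w
    simp only [mem_symmDiff, mem_union, mem_sdiff] at hw this ⊢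
    tauto
  have h3 := (card_le_card h2).trans (card_union_le _ _)
  rw [card_sdiff_of_subset hx] at h3
  have h4 := card_le_card hx
  omega

theorem exists_code (k : ℕ) (hk : k ≤ Fintype.card ι)
    (hW : 6 ^ k * 4 ^ Fintype.card ι < 6 ^ Fintype.card ι) :
    ∃ x : ℕ → Finset ι, (∀ a < k, (x a).card = a) ∧
      ∀ S ⊆ range k, ∀ a ∈ S, a ≤ (par x S).card := by
  suffices H : ∀ i ≤ k, ∃ x : ℕ → Finset ι, ∃ C : Finset (Finset ι), C.card ≤ 2 ^ i ∧ ∅ ∈ C ∧
      (∀ c ∈ C, ∀ d ∈ C, symmDiff c d ∈ C) ∧ (∀ S ⊆ range i, par x S ∈ C) ∧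
      (∀ a < i, (x a).card = a) ∧ ∀ S ⊆ range i, ∀ a ∈ S, a ≤ (par x S).card by
    obtain ⟨x, _, _, _, _, _, h1, h2⟩ := H k le_rfl
    exact ⟨x, h1, h2⟩
  intro i
  induction i with
  | zero =>
    intro _
    refine ⟨fun _ => ∅, {∅}, by simp, by simp, by simp, ?_, by simp, by simp⟩
    intro S hS
    simp [par]
  | succ i ih =>
    intro hik
    obtain ⟨x, C, hC, h0, hcl, hpar, hcard, hmin⟩ := ih (by omega)
    have hW' : 6 ^ i * 4 ^ Fintype.card ι < 6 ^ Fintype.card ι :=
      lt_of_le_of_lt (Nat.mul_le_mul_right _ (Nat.pow_le_pow_right (by norm_num) (by omega))) hW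
    obtain ⟨z, hz, hzc⟩ := exists_leader i (by omega) hW' C hC h0 hcl
    have hold : ∀ S ⊆ range i, par (Function.update x i z) S = par x S := by
      intro S hS
      refine par_congr _ _ _ fun a ha => Function.update_of_ne ?_ _ _
      have := mem_range.1 (hS ha)
      omega
    have hsplit : ∀ S ⊆ range (i + 1), S ⊆ range i ∨
        ∃ T ⊆ range i, par (Function.update x i z) S = symmDiff z (par x T) := by
      intro S hS
      by_cases hi : i ∈ S
      · right
        have hT : S.erase i ⊆ range i := by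
          intro a ha
          have h1 := mem_range.1 (hS (mem_of_mem_erase ha))
          have h2 := ne_of_mem_erase ha
          exact mem_range.2 (by omega)
        refine ⟨S.erase i, hT, ?_⟩
        conv_lhs => rw [← insert_erase hi]
        rw [par_insert _ _ _ (notMem_erase _ _), hold _ hT, Function.update_self]
      · left
        intro a ha
        have h1 := mem_range.1 (hS ha)
        have h2 : a ≠ i := fun h => hi (h ▸ ha)
        exact mem_range.2 (by omega)
    refine ⟨Function.update x i z, C ∪ C.image (fun c => symmDiff z c), ?_,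
      mem_union_left _ h0, ?_, ?_, ?_, ?_⟩
    · have h1 := card_union_le C (C.image (fun c => symmDiff z c))
      have h2 : (C.image (fun c => symmDiff z c)).card ≤ C.card := card_image_le
      rw [pow_succ]; omega
    · intro c hc d hd
      rcases mem_union.1 hc with hc | hc <;> rcases mem_union.1 hd with hd | hd
      · exact mem_union_left _ (hcl c hc d hd)
      · obtain ⟨d', hd', rfl⟩ := mem_image.1 hd
        refine mem_union_right _ (mem_image.2 ⟨_, hcl c hc d' hd', ?_⟩)
        exact symmDiff_left_comm _ _ _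
      · obtain ⟨c', hc', rfl⟩ := mem_image.1 hc
        refine mem_union_right _ (mem_image.2 ⟨_, hcl c' hc' d hd, ?_⟩)
        exact (symmDiff_assoc _ _ _).symm
      · obtain ⟨c', hc', rfl⟩ := mem_image.1 hc
        obtain ⟨d', hd', rfl⟩ := mem_image.1 hd
        refine mem_union_left _ ?_
        have : symmDiff (symmDiff z c') (symmDiff z d') = symmDiff c' d' := by
          ext w
          simp only [mem_symmDiff]
          tauto
        rw [this]
        exact hcl c' hc' d' hd'
    · intro S hS
      rcases hsplit S hS with h | ⟨T, hT, h⟩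
      · rw [hold S h]; exact mem_union_left _ (hpar S h)
      · rw [h]; exact mem_union_right _ (mem_image.2 ⟨_, hpar T hT, rfl⟩)
    · intro a ha
      by_cases hai : a = i
      · subst hai; rw [Function.update_self, hz]
      · rw [Function.update_of_ne hai]; exact hcard a (by omega)
    · intro S hS a ha
      rcases hsplit S hS with h | ⟨T, hT, h⟩
      · rw [hold S h]; exact hmin S h a ha
      · rw [h]
        have h1 := hzc _ (hpar T hT)
        have h2 := mem_range.1 (hS ha)
        omega

end Pool.Agent.F7QP
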