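import Mathlib

set_option autoImplicit false

/-! Proper colourings of two cliques `L`, `B` joined completely except for the pairs of `R`,
with an independent set `W` of further vertices attached. -/

namespace Pool.Agent.F7QP

open Finset

section kernel

lemma card_same_kernel {K γ : Type} [Fintype K] [DecidableEq K] [DecidableEq γ] (g : K → γ)
    (q : ℕ) :
    ((univ : Finset (K → Fin q)).filter (fun φ => ∀ u v, φ u = φ v ↔ g u = g v)).card =
      q.descFactorial (univ.image g).card := by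
  classical
  have h : Fintype.card ((univ.image g : Finset γ) ↪ Fin q) = q.descFactorial (univ.image g).card := by
    rw [Fintype.card_embedding_eq, Fintype.card_fin, Fintype.card_coe]
  rw [← h, ← card_univ]
  symm
  refine card_bij (fun ψ _ => fun u => ψ ⟨g u, mem_image_of_mem g (mem_univ u)⟩) ?_ ?_ ?_
  · intro ψ _
    refine mem_filter.2 ⟨mem_univ _, fun u v => ?_⟩
    rw [ψ.injective.eq_iff, Subtype.mk.injEq]
  · intro ψ _ ψ' _ h
    ext ⟨y, hy⟩
    obtain ⟨u, _, rfl⟩ := mem_image.1 hy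
    exact congrArg Fin.val (congrFun h u)
  · intro φ hφ
    have hk := (mem_filter.1 hφ).2
    have hex : ∀ y : (univ.image g : Finset γ), ∃ u, g u = y.1 := fun y => by
      obtain ⟨u, _, hu⟩ := mem_image.1 y.2
      exact ⟨u, hu⟩
    choose s hs using hex
    refine ⟨⟨fun y => φ (s y), fun y y' hy => Subtype.ext ?_⟩, mem_univ _, ?_⟩
    · rw [← hs y, ← hs y']
      exact (hk _ _).1 hy
    · funext u
      exact (hk _ _).2 (hs _)

end kernel

variable {L B W : Type} [Fintype L] [Fintype B] [Fintype W] [DecidableEq L] [DecidableEq B]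
  [DecidableEq W]

/-- injective on each of the two cliques -/
def Good {γ : Type} (φ : L ⊕ B → γ) : Prop :=
  (∀ a a', φ (Sum.inl a) = φ (Sum.inl a') → a = a') ∧
    ∀ b b', φ (Sum.inr b) = φ (Sum.inr b') → b = b'

/-- the monochromatic pairs -/
def Mt {γ : Type} [DecidableEq γ] (φ : L ⊕ B → γ) : Finset (L × B) :=
  univ.filter (fun p => φ (Sum.inl p.1) = φ (Sum.inr p.2))

/-- sets of pairs that occur as the monochromatic pairs of a map injective on both cliques -/
def IsM (M : Finset (L × B)) : Prop := ∃ φ : L ⊕ B → ℕ, Good φ ∧ Mt φ = M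

lemma card_image_good {γ : Type} [DecidableEq γ] (φ : L ⊕ B → γ) (hφ : Good φ)
    (S : Finset L) (T : Finset B) :
    ((S.disjSum T).image φ).card + ((Mt φ).filter (fun p => p.1 ∈ S ∧ p.2 ∈ T)).card
      = S.card + T.card := by
  have h1 : (S.disjSum T).image φ =
      S.image (fun a => φ (Sum.inl a)) ∪ T.image (fun b => φ (Sum.inr b)) := by
    ext y
    simp only [mem_image, mem_union, Sum.exists, inl_mem_disjSum, inr_mem_disjSum]
  have h2 : ((Mt φ).filter (fun p => p.1 ∈ S ∧ p.2 ∈ T)).card =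
      (S.image (fun a => φ (Sum.inl a)) ∩ T.image (fun b => φ (Sum.inr b))).card := by
    refine card_bij (fun p _ => φ (Sum.inl p.1)) ?_ ?_ ?_
    · intro p hp
      obtain ⟨h3, h4, h5⟩ := mem_filter.1 hp
      have h6 := (mem_filter.1 h3).2
      exact mem_inter.2 ⟨mem_image.2 ⟨p.1, h4, rfl⟩, mem_image.2 ⟨p.2, h5, h6.symm⟩⟩
    · intro p hp p' hp' h
      have h6 := (mem_filter.1 (mem_filter.1 hp).1).2
      have h7 := (mem_filter.1 (mem_filter.1 hp').1).2
      exact Prod.ext (hφ.1 _ _ h) (hφ.2 _ _ (by rw [← h6, ← h7]; exact h))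
    · intro y hy
      obtain ⟨h3, h4⟩ := mem_inter.1 hy
      obtain ⟨a, ha, rfl⟩ := mem_image.1 h3
      obtain ⟨b, hb, hab⟩ := mem_image.1 h4
      exact ⟨(a, b), mem_filter.2 ⟨mem_filter.2 ⟨mem_univ _, hab.symm⟩, ha, hb⟩, rfl⟩
  rw [h1, h2, card_union_add_card_inter, card_image_of_injective _ hφ.1,
    card_image_of_injective _ hφ.2]

lemma same_kernel_iff {γ δ : Type} [DecidableEq γ] [DecidableEq δ] (φ : L ⊕ B → γ)
    (g : L ⊕ B → δ) (hg : Good g) :
    (Good φ ∧ Mt φ = Mt g) ↔ ∀ u v, φ u = φ v ↔ g u = g v := by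
  constructor
  · rintro ⟨hφ, hM⟩
    have key : ∀ a b, φ (Sum.inl a) = φ (Sum.inr b) ↔ g (Sum.inl a) = g (Sum.inr b) := by
      intro a b
      have := Finset.ext_iff.1 hM (a, b)
      simpa [Mt] using this
    rintro (a | b) (a' | b')
    · exact ⟨fun h => by rw [hφ.1 _ _ h], fun h => by rw [hg.1 _ _ h]⟩
    · exact key a b'
    · rw [eq_comm, key a' b, eq_comm]
    · exact ⟨fun h => by rw [hφ.2 _ _ h], fun h => by rw [hg.2 _ _ h]⟩
  · intro h
    refine ⟨⟨fun a a' e => hg.1 _ _ ((h _ _).1 e), fun b b' e => hg.2 _ _ ((h _ _).1 e)⟩, ?_⟩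
    ext p
    simp only [Mt, mem_filter, mem_univ, true_and, h]

open Classical in
lemma card_fibre (M : Finset (L × B)) (hM : IsM M) (q : ℕ) :
    ((univ : Finset (L ⊕ B → Fin q)).filter (fun φ => Good φ ∧ Mt φ = M)).card =
      q.descFactorial (Fintype.card L + Fintype.card B - M.card) := by
  obtain ⟨g, hg, rfl⟩ := hM
  have h1 := card_image_good g hg univ univ
  rw [univ_disjSum_univ, filter_true_of_mem (fun p _ => ⟨mem_univ _, mem_univ _⟩), card_univ,
    card_univ] at h1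
  rw [filter_congr (fun φ _ => same_kernel_iff φ g hg), ← h1, Nat.add_sub_cancel]
  convert card_same_kernel g q

lemma isM_Mt {q : ℕ} (φ : L ⊕ B → Fin q) (hφ : Good φ) : IsM (Mt φ) := by
  refine ⟨fun u => (φ u).val, ⟨fun a a' h => hφ.1 _ _ (Fin.ext h),
    fun b b' h => hφ.2 _ _ (Fin.ext h)⟩, ?_⟩
  ext p
  simp only [Mt, mem_filter, mem_univ, true_and, Fin.val_inj]

lemma IsM.row {M : Finset (L × B)} (hM : IsM M) {p p' : L × B} (hp : p ∈ M) (hp' : p' ∈ M)
    (h : p.1 = p'.1) : p = p' := by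
  obtain ⟨g, hg, rfl⟩ := hM
  have h6 := (mem_filter.1 hp).2
  have h7 := (mem_filter.1 hp').2
  exact Prod.ext h (hg.2 _ _ (by rw [← h6, ← h7, h]))

lemma IsM.col {M : Finset (L × B)} (hM : IsM M) {p p' : L × B} (hp : p ∈ M) (hp' : p' ∈ M)
    (h : p.2 = p'.2) : p = p' := by
  obtain ⟨g, hg, rfl⟩ := hM
  have h6 := (mem_filter.1 hp).2
  have h7 := (mem_filter.1 hp').2
  exact Prod.ext (hg.1 _ _ (by rw [h6, h7, h])) h

lemma isM_single (e : L × B) : IsM ({e} : Finset (L × B)) := by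
  obtain ⟨f, hf⟩ := exists_injective_nat (L ⊕ B)
  refine ⟨fun u => if u = Sum.inr e.2 then f (Sum.inl e.1) else f u, ⟨?_, ?_⟩, ?_⟩
  · intro a a' h
    simpa [hf.eq_iff] using h
  · intro b b' h
    by_cases h1 : b = e.2 <;> by_cases h2 : b' = e.2
    · rw [h1, h2]
    · simp [h1, h2, hf.eq_iff] at h
    · simp [h1, h2, hf.eq_iff] at h
    · simpa [h1, h2, hf.eq_iff] using h
  · ext p
    by_cases h1 : p.2 = e.2
    · simp [Mt, h1, hf.eq_iff, Prod.ext_iff]
    · simp [Mt, h1, hf.eq_iff, Prod.ext_iff]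

/-- adjacency of the graph -/
def adj (R : Finset (L × B)) (N : W → Finset (L ⊕ B)) : (L ⊕ B) ⊕ W → (L ⊕ B) ⊕ W → Prop
  | Sum.inl (Sum.inl a), Sum.inl (Sum.inl a') => a ≠ a'
  | Sum.inl (Sum.inl a), Sum.inl (Sum.inr b) => (a, b) ∉ R
  | Sum.inl (Sum.inr b), Sum.inl (Sum.inl a) => (a, b) ∉ R
  | Sum.inl (Sum.inr b), Sum.inl (Sum.inr b') => b ≠ b'
  | Sum.inl u, Sum.inr w => u ∈ N w
  | Sum.inr w, Sum.inl u => u ∈ N w
  | Sum.inr _, Sum.inr _ => False

/-- the graph -/
def graph (R : Finset (L × B)) (N : W → Finset (L ⊕ B)) : SimpleGraph ((L ⊕ B) ⊕ W) where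
  Adj := adj R N
  symm := ⟨by
    rintro ((a | b) | w) ((a' | b') | w') h <;> simp only [adj] at h ⊢ <;>
      first | exact h | exact h.symm⟩
  loopless := ⟨by
    rintro ((a | b) | w) h <;> simp [adj] at h⟩

lemma proper_iff (R : Finset (L × B)) (N : W → Finset (L ⊕ B)) {q : ℕ}
    (c : (L ⊕ B) ⊕ W → Fin q) :
    (∀ u v, (graph R N).Adj u v → c u ≠ c v) ↔
      (Good (fun u => c (Sum.inl u)) ∧ Mt (fun u => c (Sum.inl u)) ⊆ R) ∧
        ∀ w, c (Sum.inr w) ∉ (N w).image (fun u => c (Sum.inl u)) := by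
  constructor
  · intro h
    refine ⟨⟨⟨fun a a' e => ?_, fun b b' e => ?_⟩, fun p hp => ?_⟩, fun w hw => ?_⟩
    · by_contra hne
      exact h (Sum.inl (Sum.inl a)) (Sum.inl (Sum.inl a')) hne e
    · by_contra hne
      exact h (Sum.inl (Sum.inr b)) (Sum.inl (Sum.inr b')) hne e
    · by_contra hne
      exact h (Sum.inl (Sum.inl p.1)) (Sum.inl (Sum.inr p.2)) hne (mem_filter.1 hp).2
    · obtain ⟨u, hu, e⟩ := mem_image.1 hw
      refine h (Sum.inr w) (Sum.inl u) ?_ e.symm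
      rcases u with a | b <;> exact hu
  · rintro ⟨⟨hg, hR⟩, hw⟩ ((a | b) | w) ((a' | b') | w') h e
    · exact h (hg.1 _ _ e)
    · exact h (hR (mem_filter.2 ⟨mem_univ (a, b'), e⟩))
    · exact hw w' (mem_image.2 ⟨_, h, e⟩)
    · exact h (hR (mem_filter.2 ⟨mem_univ (a', b), e.symm⟩))
    · exact h (hg.2 _ _ e)
    · exact hw w' (mem_image.2 ⟨_, h, e⟩)
    · exact hw w (mem_image.2 ⟨_, h, e.symm⟩)
    · exact hw w (mem_image.2 ⟨_, h, e.symm⟩)
    · exact h

open Classical in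
theorem count (R : Finset (L × B)) (NL : W → Finset L) (NB : W → Finset B) (q : ℕ) :
    Nat.card {c : (L ⊕ B) ⊕ W → Fin q //
        ∀ u v, (graph R (fun w => (NL w).disjSum (NB w))).Adj u v → c u ≠ c v} =
      ∑ M ∈ R.powerset.filter IsM, q.descFactorial (Fintype.card L + Fintype.card B - M.card) *
        ∏ w, (q - ((NL w).card + (NB w).card -
          (M.filter (fun p => p.1 ∈ NL w ∧ p.2 ∈ NB w)).card)) := by
  set N : W → Finset (L ⊕ B) := fun w => (NL w).disjSum (NB w) with hN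
  rw [Nat.card_eq_fintype_card, Fintype.card_subtype]
  set P : Finset (L ⊕ B → Fin q) := univ.filter (fun φ => Good φ ∧ Mt φ ⊆ R) with hP
  rw [card_eq_sum_card_fiberwise (f := fun c => fun u => c (Sum.inl u)) (t := P)
    (fun c hc => mem_filter.2 ⟨mem_univ _, ((proper_iff R N c).1 (mem_filter.1 hc).2).1⟩)]
  have h1 : ∀ φ ∈ P, ((univ.filter (fun c : (L ⊕ B) ⊕ W → Fin q =>
      ∀ u v, (graph R N).Adj u v → c u ≠ c v)).filter
        (fun c => (fun u => c (Sum.inl u)) = φ)).card =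
      ∏ w, (q - ((NL w).card + (NB w).card -
          ((Mt φ).filter (fun p => p.1 ∈ NL w ∧ p.2 ∈ NB w)).card)) := by
    intro φ hφ
    have hφ' := (mem_filter.1 hφ).2
    have h2 : ∀ w, q - ((NL w).card + (NB w).card -
          ((Mt φ).filter (fun p => p.1 ∈ NL w ∧ p.2 ∈ NB w)).card) = (((N w).image φ)ᶜ).card := by
      intro w
      rw [card_compl, Fintype.card_fin, ← card_image_good φ hφ'.1 (NL w) (NB w),
        Nat.add_sub_cancel]
    rw [prod_congr rfl (fun w _ => h2 w), ← Fintype.card_piFinset]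
    refine card_bij (fun c _ => fun w => c (Sum.inr w)) ?_ ?_ ?_
    · intro c hc
      obtain ⟨h3, h4⟩ := mem_filter.1 hc
      have h5 := ((proper_iff R N c).1 (mem_filter.1 h3).2).2
      rw [h4] at h5
      exact Fintype.mem_piFinset.2 fun w => mem_compl.2 (h5 w)
    · intro c hc c' hc' h
      have h4 := (mem_filter.1 hc).2
      have h5 := (mem_filter.1 hc').2
      funext v
      rcases v with u | w
      · exact (congrFun h4 u).trans (congrFun h5 u).symm
      · exact congrFun h w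
    · intro ψ hψ
      refine ⟨Sum.elim φ ψ, mem_filter.2 ⟨mem_filter.2 ⟨mem_univ _, ?_⟩, rfl⟩, rfl⟩
      exact (proper_iff R N _).2 ⟨hφ', fun w => mem_compl.1 (Fintype.mem_piFinset.1 hψ w)⟩
  rw [sum_congr rfl h1, ← sum_fiberwise_of_maps_to (s := P) (t := R.powerset.filter IsM)
    (g := fun φ => Mt φ) (fun φ hφ => mem_filter.2
      ⟨mem_powerset.2 (mem_filter.1 hφ).2.2, isM_Mt φ (mem_filter.1 hφ).2.1⟩)]
  refine sum_congr rfl fun M hM => ?_
  obtain ⟨hM1, hM2⟩ := mem_filter.1 hM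
  rw [sum_congr rfl (fun φ hφ => by rw [(mem_filter.1 hφ).2]), sum_const, smul_eq_mul,
    ← card_fibre M hM2 q]
  congr 2
  ext φ
  simp only [hP, mem_filter, mem_univ, true_and]
  constructor
  · rintro ⟨⟨a, _⟩, b⟩
    exact ⟨a, b⟩
  · rintro ⟨a, b⟩
    exact ⟨⟨a, b ▸ mem_powerset.1 hM1⟩, b⟩

end Pool.Agent.F7QP
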