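import Mathlib

set_option autoImplicit false

/-! Two-adic bookkeeping for products of factors `2X - j`, and the decoding step. -/

namespace Pool.Agent.F7QP

open Finset Polynomial

/-- the factor `2X - j` with its factor two removed when `j` is even -/
noncomputable def hf (j : ℤ) : ℤ[X] := if Even j then X - C (j / 2) else C 2 * X - C j

/-- reduction mod two -/
noncomputable abbrev red (p : ℤ[X]) : (ZMod 2)[X] := p.map (Int.castRingHom (ZMod 2))

lemma prod_factor {ι : Type} (s : Finset ι) (j : ι → ℤ) :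
    ∏ i ∈ s, (C 2 * X - C (j i) : ℤ[X]) =
      C (2 ^ (s.filter (fun i => Even (j i))).card) * ∏ i ∈ s, hf (j i) := by
  have h : ∀ i ∈ s, (C 2 * X - C (j i) : ℤ[X]) = (if Even (j i) then C 2 else 1) * hf (j i) := by
    intro i _
    unfold hf
    split_ifs with he
    · obtain ⟨t, ht⟩ := he
      have h2 : j i / 2 = t := by omega
      rw [h2, ht, mul_sub, ← C_mul]
      congr 2
      ring
    · rw [one_mul]
  rw [prod_congr rfl h, prod_mul_distrib, prod_ite, prod_const, prod_const_one, mul_one, C_pow]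

lemma two_eq : (2 : ZMod 2) = 0 := rfl

lemma red_hf_odd (j : ℤ) (h : ¬ Even j) : red (hf j) = 1 := by
  have h1 : ((j : ℤ) : ZMod 2) = 1 := by
    obtain ⟨t, ht⟩ := Int.not_even_iff_odd.1 h
    rw [ht]; push_cast; rw [two_eq]; ring
  have h2 : (-1 : ZMod 2) = 1 := rfl
  have h3 : (Int.castRingHom (ZMod 2)) 2 = 0 := rfl
  rw [hf, if_neg h, red, Polynomial.map_sub, Polynomial.map_mul, map_C, map_C, h3,
    eq_intCast, h1, map_zero, zero_mul, zero_sub, ← C_neg, h2, C_1]

lemma red_hf_zero (j : ℤ) (h : j % 4 = 0) : red (hf j) = X := by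
  have he : Even j := ⟨j / 2, by omega⟩
  have h1 : ((j / 2 : ℤ) : ZMod 2) = 0 := by
    rw [show j / 2 = 2 * (j / 4) by omega]; push_cast; rw [two_eq]; ring
  rw [hf, if_pos he, red, Polynomial.map_sub, map_C, map_X, eq_intCast, h1, map_zero, sub_zero]

lemma red_hf_two (j : ℤ) (h : j % 4 = 2) : red (hf j) = X + 1 := by
  have he : Even j := ⟨j / 2, by omega⟩
  have h1 : ((j / 2 : ℤ) : ZMod 2) = -1 := by
    rw [show j / 2 = 2 * (j / 4 + 1) - 1 by omega]; push_cast; rw [two_eq]; ring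
  rw [hf, if_pos he, red, Polynomial.map_sub, map_C, map_X, eq_intCast, h1, map_neg,
    map_one, sub_neg_eq_add]

lemma red_hf_ne (j : ℤ) : red (hf j) ≠ 0 := by
  by_cases he : Even j
  · obtain ⟨t, ht⟩ := he
    rcases (show j % 4 = 0 ∨ j % 4 = 2 by omega) with h | h
    · rw [red_hf_zero j h]; exact X_ne_zero
    · rw [red_hf_two j h, ← C_1]; exact X_add_C_ne_zero 1
  · rw [red_hf_odd j he]; exact one_ne_zero

lemma red_prod {ι : Type} (s : Finset ι) (p : ι → ℤ[X]) :
    red (∏ i ∈ s, p i) = ∏ i ∈ s, red (p i) := Polynomial.map_prod _ _ _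

/-- the forms `X^a (X+1)^b` with distinct `a` do not sum to zero -/
lemma forms_ne {E : Type} (I : Finset E) (hI : I.Nonempty) (ρ κ : E → ℕ)
    (hinj : Set.InjOn ρ I) :
    ∑ e ∈ I, (X ^ ρ e * (X + 1) ^ κ e : (ZMod 2)[X]) ≠ 0 := by
  classical
  obtain ⟨e0, he0, hmin⟩ := exists_min_image I ρ hI
  intro h
  have h1 := congrArg (fun p => Polynomial.coeff p (ρ e0)) h
  simp only [finsetSum_coeff, coeff_zero] at h1
  rw [sum_eq_single e0] at h1
  · have h2 := coeff_X_pow_mul ((X + 1 : (ZMod 2)[X]) ^ κ e0) (ρ e0) 0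
    rw [zero_add] at h2
    rw [h2, coeff_zero_eq_eval_zero] at h1
    simp at h1
  · intro e he hne
    have h2 : ρ e0 < ρ e := lt_of_le_of_ne (hmin e he) fun h => hne (hinj he he0 h.symm)
    rw [coeff_X_pow_mul', if_neg (by omega)]
  · intro h; exact absurd he0 h

theorem decode {E : Type} [DecidableEq E] (E0 : Finset E) (ρ κ : E → ℕ)
    (hinj : ∀ e ∈ E0, ∀ e' ∈ E0, ρ e = ρ e' → κ e = κ e' → e = e')
    (T : Finset E → ℤ[X]) (IsM : Finset E → Prop) [DecidablePred IsM]
    (v0 : ℕ) (Lp : (ZMod 2)[X]) (hL : Lp ≠ 0)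
    (h1 : ∀ e ∈ E0, IsM {e} ∧ ∃ U : ℤ[X], T {e} = C (2 ^ (v0 + ρ e + κ e)) * U ∧
      red U = Lp * (X ^ ρ e * (X + 1) ^ κ e))
    (h2 : ∀ M ⊆ E0, IsM M → 2 ≤ M.card → ∀ e ∈ M, C (2 ^ (v0 + ρ e + κ e + 1)) ∣ T M)
    (R R' : Finset E) (hR : R ⊆ E0) (hR' : R' ⊆ E0)
    (h : ∑ M ∈ R.powerset.filter IsM, T M = ∑ M ∈ R'.powerset.filter IsM, T M) : R = R' := by
  by_contra hne
  have hne' : (symmDiff R R').Nonempty := by
    rw [nonempty_iff_ne_empty]
    intro h0
    exact hne (symmDiff_eq_bot.1 h0)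
  have hsub : symmDiff R R' ⊆ E0 := by
    intro e he
    rcases mem_symmDiff.1 he with h | h
    · exact hR h.1
    · exact hR' h.1
  obtain ⟨e0, he0, hmin⟩ := exists_min_image _ (fun e => ρ e + κ e) hne'
  set D := ρ e0 + κ e0 with hD
  choose! U hU using fun e he => (h1 e he).2
  -- one side
  have side : ∀ P P' : Finset E, P ⊆ E0 → (∀ e ∈ P, e ∉ P' → D ≤ ρ e + κ e) →
      ∃ Z : ℤ[X], ∑ M ∈ (P.powerset.filter IsM).filter (fun M => ¬ M ⊆ P'), T M =
        C (2 ^ (v0 + D)) * (∑ e ∈ (P \ P').filter (fun e => ρ e + κ e = D), U e + C 2 * Z) := by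
    intro P P' hP hPD
    set A := (P.powerset.filter IsM).filter (fun M => ¬ M ⊆ P') with hA
    set I := (P \ P').filter (fun e => ρ e + κ e = D) with hI
    have hIA : I.image (fun e => ({e} : Finset E)) ⊆ A := by
      intro M hM
      obtain ⟨e, he, rfl⟩ := mem_image.1 hM
      have he1 := mem_sdiff.1 (mem_filter.1 he).1
      refine mem_filter.2 ⟨mem_filter.2 ⟨mem_powerset.2 (singleton_subset_iff.2 he1.1),
        (h1 e (hP he1.1)).1⟩, fun h => he1.2 (singleton_subset_iff.1 h)⟩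
    have hdvd : C (2 ^ (v0 + D + 1)) ∣ ∑ M ∈ A \ I.image (fun e => ({e} : Finset E)), T M := by
      refine dvd_sum fun M hM => ?_
      obtain ⟨hMA, hMI⟩ := mem_sdiff.1 hM
      obtain ⟨hM1, hM2⟩ := mem_filter.1 hMA
      obtain ⟨hM3, hM4⟩ := mem_filter.1 hM1
      have hMP := mem_powerset.1 hM3
      obtain ⟨e, heM, heP'⟩ := not_subset.1 hM2
      have heD := hPD e (hMP heM) heP'
      by_cases hc : 2 ≤ M.card
      · refine dvd_trans ?_ (h2 M (hMP.trans hP) hM4 hc e heM)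
        exact map_dvd C (pow_dvd_pow 2 (by omega))
      · have hMe : M = {e} := by
          refine (eq_of_subset_of_card_le (singleton_subset_iff.2 heM) ?_).symm
          rw [card_singleton]; omega
        have hne : ρ e + κ e ≠ D := by
          intro hEq
          exact hMI (mem_image.2 ⟨e, mem_filter.2 ⟨mem_sdiff.2 ⟨hMP heM, heP'⟩, hEq⟩, hMe.symm⟩)
        rw [hMe, (hU e (hP (hMP heM))).1]
        exact Dvd.dvd.mul_right (map_dvd C (pow_dvd_pow 2 (by omega))) _
    obtain ⟨Z, hZ⟩ := hdvd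
    refine ⟨Z, ?_⟩
    rw [← sum_sdiff hIA, hZ, sum_image (fun a _ b _ hab => singleton_injective hab), mul_add,
      mul_sum, add_comm, pow_succ, C_mul, mul_assoc]
    congr 1
    refine sum_congr rfl fun e he => ?_
    have he1 := mem_filter.1 he
    rw [(hU e (hP (mem_sdiff.1 he1.1).1)).1, add_assoc, he1.2]
  obtain ⟨Z, hZ⟩ := side R R' hR fun e he he' => hmin e (mem_symmDiff.2 (Or.inl ⟨he, he'⟩))
  obtain ⟨Z', hZ'⟩ := side R' R hR' fun e he he' => hmin e (mem_symmDiff.2 (Or.inr ⟨he, he'⟩))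
  have hcommon : (R.powerset.filter IsM).filter (fun M => M ⊆ R') =
      (R'.powerset.filter IsM).filter (fun M => M ⊆ R) := by
    ext M
    simp only [mem_filter, mem_powerset]
    tauto
  rw [← sum_filter_add_sum_filter_not (R.powerset.filter IsM) (fun M => M ⊆ R'),
    ← sum_filter_add_sum_filter_not (R'.powerset.filter IsM) (fun M => M ⊆ R), hcommon,
    add_right_inj, hZ, hZ'] at h
  have h3 := mul_left_cancel₀ (C_ne_zero.2 (pow_ne_zero _ two_ne_zero)) h
  have h4 := congrArg red h3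
  have hc2 : (Int.castRingHom (ZMod 2)) 2 = 0 := rfl
  simp only [red, Polynomial.map_add, Polynomial.map_mul, map_C, hc2, map_zero, zero_mul,
    add_zero, Polynomial.map_sum] at h4
  set I := (R \ R').filter (fun e => ρ e + κ e = D) with hI
  set I' := (R' \ R).filter (fun e => ρ e + κ e = D) with hI'
  have hdisj : Disjoint I I' := by
    rw [disjoint_left]
    intro e he he'
    exact (mem_sdiff.1 (mem_filter.1 he).1).2 (mem_sdiff.1 (mem_filter.1 he').1).1
  have hmem : ∀ e ∈ I ∪ I', e ∈ E0 ∧ ρ e + κ e = D := by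
    intro e he
    rcases mem_union.1 he with h | h
    · exact ⟨hR (mem_sdiff.1 (mem_filter.1 h).1).1, (mem_filter.1 h).2⟩
    · exact ⟨hR' (mem_sdiff.1 (mem_filter.1 h).1).1, (mem_filter.1 h).2⟩
  have h5 : ∑ e ∈ I ∪ I', red (U e) = 0 := by
    rw [sum_union hdisj]
    simp only [red]
    rw [h4]
    exact CharTwo.add_self_eq_zero _
  rw [sum_congr rfl (fun e he => (hU e (hmem e he).1).2), ← mul_sum] at h5
  refine forms_ne (I ∪ I') ⟨e0, ?_⟩ ρ κ ?_ ((mul_eq_zero.1 h5).resolve_left hL)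
  · rcases mem_symmDiff.1 he0 with h | h
    · exact mem_union_left _ (mem_filter.2 ⟨mem_sdiff.2 h, rfl⟩)
    · exact mem_union_right _ (mem_filter.2 ⟨mem_sdiff.2 h, rfl⟩)
  · intro e he e' he' hee
    have a1 := hmem e he
    have a2 := hmem e' he'
    exact hinj e a1.1 e' a2.1 hee (by omega)

end Pool.Agent.F7QP
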