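import Pool.Agent.Lib.MP_f7f352_co.QP.Code
import Pool.Agent.Lib.MP_f7f352_co.QP.Decode
import Pool.Agent.Lib.MP_f7f352_co.QP.Count

set_option autoImplicit false

/-! A family of `2 ^ (k * k)` graphs on `3 k + 3 + 2 |ι| + r` vertices with pairwise different
chromatic polynomials. -/

namespace Pool.Agent.F7QP

open Finset Polynomial

section general

variable {L B W : Type} [Fintype L] [Fintype B] [Fintype W] [DecidableEq L] [DecidableEq B]
  [DecidableEq W]

/-- number of colours seen by `w` -/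
def J (NL : W → Finset L) (NB : W → Finset B) (M : Finset (L × B)) (w : W) : ℤ :=
  (((NL w).card + (NB w).card : ℕ) : ℤ) -
    ((M.filter (fun p => p.1 ∈ NL w ∧ p.2 ∈ NB w)).card : ℕ)

/-- the term of `M` at `2 X` colours -/
noncomputable def T (NL : W → Finset L) (NB : W → Finset B) (M : Finset (L × B)) : ℤ[X] :=
  (∏ j ∈ range (Fintype.card L + Fintype.card B - M.card), (C 2 * X - C (j : ℤ))) *
    ∏ w, (C 2 * X - C (J NL NB M w))

lemma eval_T (NL : W → Finset L) (NB : W → Finset B) (M : Finset (L × B)) (hM : IsM M) (m : ℕ)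
    (hm : Fintype.card L + Fintype.card B ≤ 2 * m) :
    eval (m : ℤ) (T NL NB M) =
      (((2 * m).descFactorial (Fintype.card L + Fintype.card B - M.card) *
        ∏ w, (2 * m - ((NL w).card + (NB w).card -
          (M.filter (fun p => p.1 ∈ NL w ∧ p.2 ∈ NB w)).card)) : ℕ) : ℤ) := by
  obtain ⟨g, hg, rfl⟩ := hM
  rw [T, eval_mul, eval_prod, eval_prod, Nat.descFactorial_eq_prod_range, Nat.cast_mul,
    Nat.cast_prod, Nat.cast_prod]
  congr 1
  · refine prod_congr rfl fun j hj => ?_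
    have := mem_range.1 hj
    rw [eval_sub, eval_mul, eval_C, eval_C, eval_X]
    omega
  · refine prod_congr rfl fun w _ => ?_
    have h1 := card_image_good g hg (NL w) (NB w)
    have h2 := card_le_univ (NL w)
    have h3 := card_le_univ (NB w)
    rw [eval_sub, eval_mul, eval_C, eval_C, eval_X, J]
    omega

open Classical in
lemma poly_eq (NL : W → Finset L) (NB : W → Finset B) (R R' : Finset (L × B))
    (h : ∀ q : ℕ, Nat.card {c : (L ⊕ B) ⊕ W → Fin q //
        ∀ u v, (graph R (fun w => (NL w).disjSum (NB w))).Adj u v → c u ≠ c v} =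
      Nat.card {c : (L ⊕ B) ⊕ W → Fin q //
        ∀ u v, (graph R' (fun w => (NL w).disjSum (NB w))).Adj u v → c u ≠ c v}) :
    ∑ M ∈ R.powerset.filter IsM, T NL NB M = ∑ M ∈ R'.powerset.filter IsM, T NL NB M := by
  refine Polynomial.eq_of_infinite_eval_eq _ _ (Set.infinite_of_injective_forall_mem
    (f := fun m : ℕ => ((m + (Fintype.card L + Fintype.card B) : ℕ) : ℤ)) ?_ ?_)
  · intro a b hab
    have : ((a + (Fintype.card L + Fintype.card B) : ℕ) : ℤ) =
      ((b + (Fintype.card L + Fintype.card B) : ℕ) : ℤ) := hab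
    omega
  · intro m
    have h1 := h (2 * (m + (Fintype.card L + Fintype.card B)))
    rw [count, count] at h1
    have h2 := congrArg (Nat.cast : ℕ → ℤ) h1
    rw [Nat.cast_sum, Nat.cast_sum] at h2
    simp only [Set.mem_setOf_eq, eval_finsetSum]
    rw [sum_congr rfl (fun M hM => eval_T NL NB M (mem_filter.1 hM).2 _ (by omega)),
      sum_congr rfl (fun M hM => eval_T NL NB M (mem_filter.1 hM).2 _ (by omega))]
    exact h2

end general

lemma card_even (n : ℕ) :
    ((range n).filter (fun j : ℕ => Even (j : ℤ))).card = (n + 1) / 2 := by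
  induction n with
  | zero => simp
  | succ n ih =>
    rw [range_add_one, filter_insert]
    split_ifs with h
    · rw [card_insert_of_notMem (fun h => notMem_range_self (mem_filter.1 h).1), ih]
      obtain ⟨t, ht⟩ := h
      omega
    · rw [ih]
      obtain ⟨t, ht⟩ := Int.not_even_iff_odd.1 h
      omega

section group

variable {κ : Type} [Fintype κ] [DecidableEq κ]

lemma grp_factor (z : ℕ → Finset κ) (S : Finset ℕ) (d : κ → ℕ) (hd : ∀ i, d i % 2 = 1)
    (j : κ → ℤ) (hj : ∀ i, j i = (d i : ℤ) - ((S.filter (fun a => i ∈ z a)).card : ℕ)) :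
    ∏ i, (C 2 * X - C (j i) : ℤ[X]) = C (2 ^ (par z S).card) * ∏ i, hf (j i) := by
  rw [prod_factor]
  congr 4
  refine filter_congr fun i _ => ?_
  rw [hj i, Int.even_iff, Nat.odd_iff]
  have := hd i
  omega

lemma par_single (z : ℕ → Finset κ) (a : ℕ) : par z {a} = z a := by
  ext i
  by_cases h : i ∈ z a <;> simp [par, filter_singleton, h]

lemma grp_single (z : ℕ → Finset κ) (a : ℕ) (d : κ → ℕ) (t : ℕ) (ht : t % 2 = 0)
    (hd : ∀ i, d i % 4 = t + 1) (F : (ZMod 2)[X]) (hF : ∀ j : ℤ, j % 4 = t → red (hf j) = F)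
    (j : κ → ℤ)
    (hj : ∀ i, j i = (d i : ℤ) - ((({a} : Finset ℕ).filter (fun a => i ∈ z a)).card : ℕ)) :
    red (∏ i, hf (j i)) = F ^ (z a).card := by
  have h : ∀ i ∈ (univ : Finset κ), red (hf (j i)) = if i ∈ z a then F else 1 := by
    intro i _
    have h1 := hj i
    have h2 := hd i
    rw [filter_singleton] at h1
    split_ifs at h1 ⊢ with hi
    · rw [card_singleton] at h1
      exact hF _ (by omega)
    · rw [card_empty] at h1
      exact red_hf_odd _ (by rw [Int.even_iff]; omega)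
  rw [red_prod, prod_congr rfl h, prod_ite, prod_const, prod_const_one, mul_one,
    filter_mem_eq_inter, univ_inter]

end group

lemma exists_pad (s t : ℕ) : ∃ P : Finset (Fin 3), t < 4 → (s + P.card) % 4 = t := by
  obtain ⟨P, _, hP⟩ := exists_subset_card_eq (s := (univ : Finset (Fin 3)))
    (n := (t + 3 * s) % 4) (by rw [card_univ, Fintype.card_fin]; omega)
  exact ⟨P, fun h => by omega⟩

/-- padding vertices that bring a degree to a prescribed residue mod four -/
noncomputable def pad (s t : ℕ) : Finset (Fin 3) := (exists_pad s t).choose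

lemma pad_spec (s t : ℕ) (h : t < 4) : (s + (pad s t).card) % 4 = t := (exists_pad s t).choose_spec h

/-- unit words -/
def unitw (k : ℕ) (a : ℕ) : Finset (Fin k) := univ.filter (fun i => i.val = a)

lemma par_unitw (k : ℕ) (S : Finset ℕ) (hS : S ⊆ range k) : (par (unitw k) S).card = S.card := by
  refine card_bij (fun i _ => i.val) ?_ ?_ ?_
  · intro i hi
    have h := (mem_filter.1 hi).2
    obtain ⟨a, ha⟩ := card_pos.1 h.pos
    obtain ⟨h1, h2⟩ := mem_filter.1 ha
    rw [(mem_filter.1 h2).2]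
    exact h1
  · intro i _ i' _ h
    exact Fin.ext h
  · intro a ha
    refine ⟨⟨a, mem_range.1 (hS ha)⟩, mem_filter.2 ⟨mem_univ _, ?_⟩, rfl⟩
    have : S.filter (fun a' => (⟨a, mem_range.1 (hS ha)⟩ : Fin k) ∈ unitw k a') = {a} := by
      ext a'
      simp only [unitw, mem_filter, mem_univ, true_and, mem_singleton]
      constructor
      · intro h; exact h.2.symm
      · rintro rfl; exact ⟨ha, rfl⟩
    rw [this, card_singleton]
    exact odd_one

section family

variable {ι : Type} [Fintype ι] [DecidableEq ι] (k r : ℕ) (x : ℕ → Finset ι)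

/-- the indices whose word contains `i` -/
def sel {κ : Type} [DecidableEq κ] (z : ℕ → Finset κ) (i : κ) : Finset (Fin k) :=
  univ.filter (fun a => i ∈ z a.val)

/-- neighbours in the first clique -/
noncomputable def NL : (ι ⊕ Fin k) ⊕ (ι ⊕ Fin r) → Finset (Fin k ⊕ Fin 3)
  | Sum.inl (Sum.inl i) => (sel k x i).disjSum (pad ((sel k x i).card + k) 1)
  | Sum.inl (Sum.inr i) =>
      (sel k (unitw k) i).disjSum (pad ((sel k (unitw k) i).card + k) 1)
  | Sum.inr (Sum.inl i) => univ.disjSum (pad ((sel k x i).card + k) 3)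
  | Sum.inr (Sum.inr _) => ∅

/-- neighbours in the second clique -/
def NB : (ι ⊕ Fin k) ⊕ (ι ⊕ Fin r) → Finset (Fin k)
  | Sum.inl _ => univ
  | Sum.inr (Sum.inl i) => sel k x i
  | Sum.inr (Sum.inr _) => ∅

/-- row index -/
def row (p : (Fin k ⊕ Fin 3) × Fin k) : ℕ := Sum.elim Fin.val (fun _ => 0) p.1

/-- column index -/
def col (p : (Fin k ⊕ Fin 3) × Fin k) : ℕ := p.2.val

/-- the pairs that may be non-adjacent -/
def E0 : Finset ((Fin k ⊕ Fin 3) × Fin k) := univ.filter (fun p => p.1.isLeft)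

lemma mem_E0 {k : ℕ} {p : (Fin k ⊕ Fin 3) × Fin k} (hp : p ∈ E0 k) :
    ∃ a b, p = (Sum.inl a, b) := by
  obtain ⟨a, ha⟩ := Sum.isLeft_iff.1 (mem_filter.1 hp).2
  exact ⟨a, p.2, Prod.ext ha rfl⟩

lemma row_inj {k : ℕ} {M : Finset ((Fin k ⊕ Fin 3) × Fin k)} (hE : M ⊆ E0 k) (hM : IsM M) :
    Set.InjOn (row k) M := by
  intro p hp p' hp' h
  obtain ⟨a, b, rfl⟩ := mem_E0 (hE hp)
  obtain ⟨a', b', rfl⟩ := mem_E0 (hE hp')
  exact hM.row hp hp' (congrArg Sum.inl (Fin.ext h))

lemma col_inj {k : ℕ} {M : Finset ((Fin k ⊕ Fin 3) × Fin k)} (hM : IsM M) :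
    Set.InjOn (col k) M := fun _ hp _ hp' h => hM.col hp hp' (Fin.ext h)

lemma row_sub {k : ℕ} {M : Finset ((Fin k ⊕ Fin 3) × Fin k)} (hE : M ⊆ E0 k) :
    M.image (row k) ⊆ range k := by
  intro a ha
  obtain ⟨p, hp, rfl⟩ := mem_image.1 ha
  obtain ⟨a, b, rfl⟩ := mem_E0 (hE hp)
  exact mem_range.2 a.2

lemma col_sub {k : ℕ} (M : Finset ((Fin k ⊕ Fin 3) × Fin k)) : M.image (col k) ⊆ range k := by
  intro a ha
  obtain ⟨p, _, rfl⟩ := mem_image.1 ha
  exact mem_range.2 p.2.2

lemma card_filter_image {E : Type} [DecidableEq E] (M : Finset E) (f : E → ℕ)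
    (hf : Set.InjOn f M) (Q : E → Prop) [DecidablePred Q] (Q' : ℕ → Prop) [DecidablePred Q']
    (h : ∀ p ∈ M, Q p ↔ Q' (f p)) : (M.filter Q).card = ((M.image f).filter Q').card := by
  rw [filter_image, card_image_of_injOn (hf.mono (coe_subset.2 (filter_subset _ _))),
    filter_congr h]

lemma eA {k : ℕ} {κ : Type} [DecidableEq κ] (z : ℕ → Finset κ) (i : κ) (P : Finset (Fin 3))
    {M : Finset ((Fin k ⊕ Fin 3) × Fin k)} (hE : M ⊆ E0 k) (hM : IsM M) :
    (M.filter (fun p => p.1 ∈ (sel k z i).disjSum P ∧ p.2 ∈ (univ : Finset (Fin k)))).card =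
      ((M.image (row k)).filter (fun a => i ∈ z a)).card := by
  refine card_filter_image M _ (row_inj hE hM) _ _ fun p hp => ?_
  obtain ⟨a, b, rfl⟩ := mem_E0 (hE hp)
  simp [sel, row]

lemma eB {k : ℕ} {κ : Type} [DecidableEq κ] (z : ℕ → Finset κ) (i : κ) (P : Finset (Fin 3))
    {M : Finset ((Fin k ⊕ Fin 3) × Fin k)} (hE : M ⊆ E0 k) (hM : IsM M) :
    (M.filter (fun p => p.1 ∈ (univ : Finset (Fin k)).disjSum P ∧ p.2 ∈ sel k z i)).card =
      ((M.image (col k)).filter (fun a => i ∈ z a)).card := by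
  refine card_filter_image M _ (col_inj hM) _ _ fun p hp => ?_
  obtain ⟨a, b, rfl⟩ := mem_E0 (hE hp)
  simp [sel, col]

lemma dA {k : ℕ} (S : Finset (Fin k)) :
    ((S.disjSum (pad (S.card + k) 1)).card + (univ : Finset (Fin k)).card) % 4 = 0 + 1 := by
  have := pad_spec (S.card + k) 1 (by norm_num)
  rw [card_disjSum, card_univ, Fintype.card_fin]
  omega

lemma dB {k : ℕ} (S : Finset (Fin k)) :
    (((univ : Finset (Fin k)).disjSum (pad (S.card + k) 3)).card + S.card) % 4 = 2 + 1 := by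
  have := pad_spec (S.card + k) 3 (by norm_num)
  rw [card_disjSum, card_univ, Fintype.card_fin]
  omega

lemma odd_of (d t : ℕ) (ht : t % 2 = 0) (h : d % 4 = t + 1) : d % 2 = 1 := by omega

lemma T_factor {M : Finset ((Fin k ⊕ Fin 3) × Fin k)} (hE : M ⊆ E0 k) (hM : IsM M) :
    T (NL k r x) (NB k r x) M =
      C (2 ^ ((2 * k + 3 - M.card + 1) / 2 + (par x (M.image (row k))).card + M.card +
        (par x (M.image (col k))).card + r)) *
      ((∏ j ∈ range (2 * k + 3 - M.card), hf (j : ℤ)) *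
        (∏ i, hf (J (NL k r x) (NB k r x) M (Sum.inl (Sum.inl i)))) *
        (∏ i, hf (J (NL k r x) (NB k r x) M (Sum.inl (Sum.inr i)))) *
        (∏ i, hf (J (NL k r x) (NB k r x) M (Sum.inr (Sum.inl i)))) * X ^ r) := by
  have hc : Fintype.card (Fin k ⊕ Fin 3) + Fintype.card (Fin k) = 2 * k + 3 := by
    simp only [Fintype.card_sum, Fintype.card_fin]; ring
  have g1 := grp_factor x (M.image (row k)) _ (fun i => odd_of _ 0 rfl (dA (sel k x i)))
    (fun i => J (NL k r x) (NB k r x) M (Sum.inl (Sum.inl i)))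
    (fun i => by rw [← eA x i _ hE hM]; rfl)
  have g2 := grp_factor (unitw k) (M.image (row k)) _
    (fun i => odd_of _ 0 rfl (dA (sel k (unitw k) i)))
    (fun i => J (NL k r x) (NB k r x) M (Sum.inl (Sum.inr i)))
    (fun i => by rw [← eA (unitw k) i _ hE hM]; rfl)
  have g3 := grp_factor x (M.image (col k)) _ (fun i => odd_of _ 2 rfl (dB (sel k x i)))
    (fun i => J (NL k r x) (NB k r x) M (Sum.inr (Sum.inl i)))
    (fun i => by rw [← eB x i _ hE hM]; rfl)
  have g4 : ∏ i : Fin r, (C 2 * X - C (J (NL k r x) (NB k r x) M (Sum.inr (Sum.inr i))) : ℤ[X])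
      = C (2 ^ r) * X ^ r := by
    have : ∀ i : Fin r, J (NL k r x) (NB k r x) M (Sum.inr (Sum.inr i)) = 0 := by
      intro i; simp [J, NL, NB]
    simp only [this, map_zero, sub_zero, prod_const, card_univ, Fintype.card_fin, mul_pow, C_pow]
  rw [par_unitw k _ (row_sub hE), card_image_of_injOn (row_inj hE hM)] at g2
  rw [T, hc, prod_factor, card_even, Fintype.prod_sum_type, Fintype.prod_sum_type,
    Fintype.prod_sum_type, g1, g2, g3, g4]
  simp only [pow_add, C_mul]
  ring

open Classical in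
theorem family_inj (hx1 : ∀ a < k, (x a).card = a)
    (hx2 : ∀ S ⊆ range k, ∀ a ∈ S, a ≤ (par x S).card)
    (R R' : Finset ((Fin k ⊕ Fin 3) × Fin k)) (hR : R ⊆ E0 k) (hR' : R' ⊆ E0 k)
    (h : ∀ q : ℕ, Nat.card {c : ((Fin k ⊕ Fin 3) ⊕ Fin k) ⊕ ((ι ⊕ Fin k) ⊕ (ι ⊕ Fin r)) → Fin q //
        ∀ u v, (graph R (fun w => (NL k r x w).disjSum (NB k r x w))).Adj u v → c u ≠ c v} =
      Nat.card {c : ((Fin k ⊕ Fin 3) ⊕ Fin k) ⊕ ((ι ⊕ Fin k) ⊕ (ι ⊕ Fin r)) → Fin q //
        ∀ u v, (graph R' (fun w => (NL k r x w).disjSum (NB k r x w))).Adj u v → c u ≠ c v}) :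
    R = R' := by
  refine decode (E0 k) (row k) (col k) ?_ (T (NL k r x) (NB k r x)) IsM (k + 2 + r)
    (red (∏ j ∈ range (2 * k + 2), hf (j : ℤ)) * X * X ^ r) ?_ ?_ ?_ R R' hR hR'
    (by convert poly_eq _ _ R R' h)
  · intro e he e' he' h1 h2
    obtain ⟨a, b, rfl⟩ := mem_E0 he
    obtain ⟨a', b', rfl⟩ := mem_E0 he'
    exact Prod.ext (congrArg Sum.inl (Fin.ext h1)) (Fin.ext h2)
  · refine mul_ne_zero (mul_ne_zero ?_ X_ne_zero) (pow_ne_zero _ X_ne_zero)
    rw [red_prod]
    exact prod_ne_zero_iff.2 fun j _ => red_hf_ne _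
  · intro e he
    have hE : ({e} : Finset _) ⊆ E0 k := singleton_subset_iff.2 he
    have hM := isM_single e
    have hr : row k e < k := mem_range.1 (row_sub hE (mem_image_of_mem _ (mem_singleton_self e)))
    have hcl : col k e < k := e.2.2
    have hT := T_factor k r x hE hM
    rw [image_singleton, image_singleton, par_single, par_single,
      hx1 _ hr, hx1 _ hcl, card_singleton,
      show (2 * k + 3 - 1 + 1) / 2 + row k e + 1 + col k e + r = k + 2 + r + row k e + col k e
        by omega] at hT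
    refine ⟨hM, _, hT, ?_⟩
    · have g1 := grp_single x (row k e) _ 0 rfl (fun i => dA (sel k x i)) X
        (fun j hj => red_hf_zero j hj)
        (fun i => J (NL k r x) (NB k r x) {e} (Sum.inl (Sum.inl i)))
        (fun i => by rw [← image_singleton (row k), ← eA x i _ hE hM]; rfl)
      have g2 := grp_single (unitw k) (row k e) _ 0 rfl (fun i => dA (sel k (unitw k) i)) X
        (fun j hj => red_hf_zero j hj)
        (fun i => J (NL k r x) (NB k r x) {e} (Sum.inl (Sum.inr i)))
        (fun i => by rw [← image_singleton (row k), ← eA (unitw k) i _ hE hM]; rfl)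
      have g3 := grp_single x (col k e) _ 2 rfl (fun i => dB (sel k x i)) (X + 1)
        (fun j hj => red_hf_two j hj)
        (fun i => J (NL k r x) (NB k r x) {e} (Sum.inr (Sum.inl i)))
        (fun i => by rw [← image_singleton (col k), ← eB x i _ hE hM]; rfl)
      have hu : (unitw k (row k e)).card = 1 := by
        rw [← par_single (unitw k), par_unitw k _ (singleton_subset_iff.2 (mem_range.2 hr)),
          card_singleton]
      rw [hx1 _ hr] at g1
      rw [hu] at g2
      rw [hx1 _ hcl] at g3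
      simp only [red] at g1 g2 g3 ⊢
      rw [Polynomial.map_mul, Polynomial.map_mul, Polynomial.map_mul, Polynomial.map_mul,
        g1, g2, g3, Polynomial.map_pow, map_X, show 2 * k + 3 - 1 = 2 * k + 2 by omega]
      ring
  · intro M hE hM hc e he
    rw [T_factor k r x hE hM]
    refine Dvd.dvd.mul_right (_root_.map_dvd C (pow_dvd_pow 2 ?_)) _
    have h1 := hx2 _ (row_sub hE) _ (mem_image_of_mem _ he)
    have h2 := hx2 _ (col_sub M) _ (mem_image_of_mem _ he)
    have h3 := card_le_card (row_sub hE)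
    rw [card_image_of_injOn (row_inj hE hM), card_range] at h3
    omega

end family

lemma card_E0 (k : ℕ) : (E0 k).card = k ^ 2 := by
  have : E0 k = (univ : Finset (Fin k × Fin k)).image (fun p => (Sum.inl p.1, p.2)) := by
    ext ⟨a | a, b⟩ <;> simp [E0]
  rw [this, card_image_of_injective, card_univ, Fintype.card_prod, Fintype.card_fin, sq]
  intro p p' h
  simp only [Prod.mk.injEq, Sum.inl.injEq] at h
  exact Prod.ext h.1 h.2

lemma length_ok (k : ℕ) (hk : 1 ≤ k) :
    6 ^ k * 4 ^ ((9 * k + 1) / 2) < 6 ^ ((9 * k + 1) / 2) := by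
  obtain ⟨s, hs⟩ : ∃ s, 2 * ((9 * k + 1) / 2) = 9 * k + s := ⟨2 * ((9 * k + 1) / 2) - 9 * k, by omega⟩
  refine lt_of_pow_lt_pow_left₀ 2 (Nat.zero_le _) ?_
  rw [mul_pow, ← pow_mul, ← pow_mul, ← pow_mul, mul_comm ((9 * k + 1) / 2) 2, hs, pow_add,
    pow_add, mul_comm k 2, pow_mul, pow_mul, pow_mul, ← mul_assoc, ← mul_pow]
  exact Nat.mul_lt_mul_of_lt_of_le (Nat.pow_lt_pow_left (by norm_num) (by omega))
    (Nat.pow_le_pow_left (by norm_num) _) (by positivity)

end Pool.Agent.F7QP
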